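import Pool.Agent.U231.FR.T8

/-!
# Tate's conjecture for higher Chow groups of products of all smooth varieties with varieties of
Fermat type

Let `κ` be a finite field with `q` elements, of characteristic `p`, and `𝒱` a class of smooth projective
varieties over `κ`, closed under products, with Chow groups `A` with rational coefficients and a Weil
cohomology theory `H` (framework of helper492 and helper484: `TheoryData`, `IsChow`, `IsWeil`). Let `X_i` be
varieties in `𝒱` **of Fermat type** of different prime degrees `N_i` and of lengths at most `s_i`
(`IsFermatType`): the cohomology of `X_i` is generated by the classes of cycles and a subspace `T_i`, stable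
under the Frobenius, such that each eigenvalue of the Frobenius on `T_i` is, up to a root of unity and a
power of `q`, a product `∏_{a ∈ A} g(θ ^ a)` of at most `s_i` Gauss sums over `κ`, where `θ` is a
multiplicative character of `κ` of order `N_i`, and where the multiset `A + p A + ⋯ + p ^ (f - 1) A`, `f` the
order of `p` modulo `N_i`, is not symmetric, i.e. not invariant under `a ↦ -a`.

By the theorem of Weil the diagonal hypersurfaces `∑ c_j x_j ^ N = 0` of dimension `n` over `κ` (for
`q ≡ 1` modulo `N`) and their powers and products are of this form with `s = n + 2` (for products: the sum
of these numbers), if the classes with symmetric `A + p A + ⋯` are algebraic. For `p ≡ 1` modulo `N` the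
condition on the multiset is that `A` is not symmetric, and **the algebraicity for symmetric `A` is known**
for `c_j = 1`, and in general after a finite extension of `κ` (linear subspaces, Ran, Shioda and Katsura).

Let `U` be **any** smooth variety over `κ` (open varieties are allowed), and `Z` **any** variety in `𝒱`. Fix an
integer `m`. For `X` in `𝒱` let
* `T^n(X) = CH^n(X × U, m) ⊗ ℚ_ℓ` (higher Chow groups),
* `R^n(X)` the elements of `H^{2n-m}(X × U)` on which the Frobenius endomorphism acts as `q ^ n`, that is,
  the Galois invariants of the twist by `n`,
* `reg : T^n(X) → R^n(X)` the regulator, the map `c^{2n-m,n}` of the question for `X × U`, and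
* `φ` the Frobenius endomorphism of `U`, on the cohomology.
On these groups act the correspondences between the varieties in `𝒱`; this and the fact that
homologically trivial correspondences act as zero on `R`, that is on
`H(X × U) = H(X) ⊗ H(U)`, are the only properties of `T`, `R` and `reg` which are used (`IsMotivic`,
`IsCohomological`, `IsRegulator`). Let `χ` be a polynomial with rational coefficients, `χ (0) ≠ 0`, which is
satisfied by the Frobenius endomorphism of `U` on the cohomology of `U`, let `B` be the set of the products
`β` of an eigenvalue of Frobenius on `H(Z)` and of a complex root of `χ`, and suppose that the `β` are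
algebraic (theorem of Deligne). Let `f_i` be the order of `p` modulo `N_i`. Suppose that for all `β` in `B` and all `i` there is an `m > 0` such that (`IsSmallBase`)

* the field `F = ℚ(β ^ m) ∩ ℚ(ζ_{N_i})`, `ζ_N` a root of unity of order `N`, is real (equivalently
  `(N_i - 1) / [F : ℚ]` is even); for instance `N_i` is odd and unramified in the field `ℚ(β ^ m)`;
* or `N_i > s_i f_i [F : ℚ] + 1`; or `N_i = 2`.

**So the theorem applies to all prime numbers `N_i` with finitely many exceptions, which depend only on
the fields `ℚ(β)`. For the other primes there is no condition at all on the `X_i`: they may be of any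
dimension and products of any number of factors, and `s_i` and `f_i` are arbitrary.**

**Theorem.** Let `V` be the product of `Z` and of finitely many pairwise different `X_i`, and
`e = dim V - dim Z`.
* For every `n` **the regulator `c^{2n-m,n}` of `V × U` is surjective if and only if the regulators
  `c^{2l-m,l}` of `Z × U` with `n - e ≤ l ≤ n` are surjective**. So the conjecture of Beilinson,
  Friedlander and Jannsen (Tate's conjecture for higher Chow groups) for `V × U` is equivalent to the
  conjecture for `Z × U`; for `Z` a point, to the conjecture for `U`.
* If `V = X_i × V'`, then there are finitely many algebraic cycles `D j` on `X_i` such that the Galois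
  invariants satisfy `R^n(X_i × V') = ⨁ D j × R^(n - deg D j)(V')` for all `n`.

No nilpotence and no case of any conjecture is assumed. If `U` is a smooth curve, for example, the
conjecture is known for `U`, hence it holds for `X_1 × ⋯ × X_r × U` for diagonal hypersurfaces `X_i` of
any dimensions and of different odd prime degrees `N_i` dividing `p - 1`, unramified in the fields of the
Frobenius eigenvalues of `U`.

The starting result `MP_81b968_ag.HyperplaneCoverings` (helper876) and the result
`MP_81b968_ag.LargePrimeCoverings` (helper222) are about cyclic coverings branched along hyperplanes
(with few branch divisors, and the part `H^{n,0}` of their cohomology is used). Here all nonsymmetric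
characters occur, for instance those of very small level in the cohomology of diagonal hypersurfaces
of large dimension.

The proof. Let `α_i` be eigenvalues of the Frobenius on the `T_i`, for `i` in a nonempty set `I`, and
suppose that `β ∏ α_i` is a power of `q` up to a root of unity. By the theorem of Stickelberger for the
conjugates of Gauss sums the function `t ↦ ∑_{x ∈ A + p A + ⋯} saw(t x)` on `(ℤ/N_i)ˣ` is invariant
under the subgroup with the fixed field `F`. The values `L(1, χ)` are not zero, so the
sawtooth functions `t ↦ saw(t x)` are independent up to the sign of `x`, and the odd part of the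
multiplicity function of `A + p A + ⋯` is invariant under this subgroup and not zero. So `-1` is not
in the subgroup (`F` is not real), and the support of `A + p A + ⋯` contains a coset of it: at least
`(N_i - 1) / [F : ℚ]` elements, but at most `s_i f_i`, a contradiction
(`U231/FF`, as in my hand-ins `MP_f569db_ag.FermatFactors`, `MP_ffcd14_ag.FermatFactors` and
`MP_0f183b_ag.FermatFactors` on the standard conjectures and the Tate conjecture for `V` itself, and
`MP_81632f_ag.FermatFactors`, `MP_81b968_ag.FermatFactors`, `MP_3af9db_ag.FermatFactors` on `V × U`).
From this the decomposition of the invariants follows by projectors in the ring generated by the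
Frobenius and the algebraic cycles (helper876, `N876/CG`).

helper231 (`Pool/Agent/U231/FF`, `U231/FR`); the part on higher Chow groups, with its definitions, is from
the starting result and the library `N876/CG` of helper876, adapted by helper222 (`U222/SL/T8`), built on
helpers 484, 492, 550.
-/

set_option autoImplicit false

open Polynomial CategoryTheory AlgebraicGeometry

namespace Pool.Agent.Results.MP_81b968_ag.FermatFactors

open Pool.Agent.H914 Pool.Agent.H914.VarClass Pool.Agent.H914.VarClass.Obj Pool.Agent.W492.BB
  Pool.Agent.W484.CK Pool.Agent.U231.FF Pool.Agent.U231.FR.T8

/-- **Tate's conjecture for higher Chow groups of products of arbitrary smooth varieties with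
varieties of Fermat type of different prime degrees.** -/
theorem result (p : ℕ) [Fact p.Prime] (κ : Type) [Field κ] [Fintype κ] [CharP κ p] {ι : Type}
    (N s : ι → ℕ) {𝒱 : VarClass κ} (A : TheoryData.{0, 0, 0} 𝒱 ℚ) [IsChow A] {K : Type} [Field K]
    [IsAlgClosed K] [CharZero K] (H : WeilTheoryData.{0, 0, 0} A K) [IsWeil H] (τ : K →+* ℂ)
    (F : ∀ X : 𝒱.Obj, X ⟶ X) (X : ι → 𝒱.Obj) (Z : 𝒱.Obj) (χ : ℚ[X])
    (h : IsFermatSystem p N s H τ F X Z χ) (T R : MotivicData A)
    (φ : ∀ X, R.M X →ₗ[ℚ] R.M X) (hR : IsCohomological H R φ F (Fintype.card κ) χ)
    (reg : ∀ X, T.M X →ₗ[ℚ] R.M X) (hreg : IsRegulator T R reg) :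
    (∀ L : List ι, L.Nodup → Conclusions X Z reg L) ∧
    -- the degree in the condition on `Z` and `U` is at most the degree of `β`
    (∀ (n : ℕ) (β : ℂ), IsAlgebraic ℚ β → commonDegree n β ≤ (minpoly ℚ β).natDegree) :=
  ⟨fun L hL => main p κ N s A H τ F X Z χ h T R φ hR reg hreg L hL,
    fun _ _ hβ => commonDegree_le hβ⟩

end Pool.Agent.Results.MP_81b968_ag.FermatFactors
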