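import Pool.Agent.U554.TU.App

/-!
# The Tate conjecture for higher Chow groups and the groups `CH^j(Y, n)` of the cubics `T(x, y, z) = 1`

Let `k` be a finite field and `ℓ` a prime number different from its characteristic. The data
`O b m X`, for the separated schemes `X` of finite type over `k`, stand for the regulators

  `c : CH_b(X, m) ⊗ ℚ_ℓ → H_{m + 2 b}(X̄, ℚ_ℓ(b))`

from Bloch's higher Chow groups to the étale (Borel-Moore) homology; for `X` smooth of pure dimension
`d` this is the map `c^{i, j} : CH^j(X, 2 j - i) ⊗ ℚ_ℓ → H^i(X̄, ℚ_ℓ(j))` of the problem, `j = d - b`,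
`i = 2 j - m`. The operator `frob` is the Frobenius, its fixed elements are the Galois invariants.
`IsRegulator` lists the known properties which are used.

For a trilinear form `T` in three blocks of `a₁`, `a₂`, `a₃` variables let `Y_T` be the smooth affine
hypersurface `T(x, y, z) = 1` of dimension `d = a₁ + a₂ + a₃ - 1`; `O (d - j) m (hypS T)` is the map
`CH^j(Y_T, m) ⊗ ℚ_ℓ → H^{2 j - m}(Ȳ_T, ℚ_ℓ(j))`.
-/

set_option autoImplicit false

open CategoryTheory AlgebraicGeometry MvPolynomial Pool.Agent.Y116.UV Pool.Agent.U554.TU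

universe w

namespace Pool.Agent.Results.MP_81b968_ag.HigherChowGroupsOfCubics

variable {K : Type} [Field K]

/-- The Frobenius. -/
def frob (X : Reg.{w} K Unit) : X.B →ₗ[K] X.B := X.act ()

/-- Surjectivity onto the elements which are fixed by the Frobenius. -/
def Onto (X : Reg.{w} K Unit) : Prop := ∀ x : X.B, frob X x = x → ∃ a : X.A, X.c a = x

/-- The eigenvalue `1` of the Frobenius is semisimple. -/
def SemisimpleAtOne (X : Reg.{w} K Unit) : Prop :=
  ∀ x : X.B, frob X (frob X x - x) = frob X x - x → frob X x = x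

/-- `Z` is a closed subscheme of `X` with complement `U` of finite type, and `α`, `β`, `δ` are the maps
of an exact sequence `⋯ → O_{b,m}(Z) → O_{b,m}(X) → O_{b,m}(U) → O_{b,m-1}(Z) → ⋯`. -/
structure IsLocalization {k : Type} [Field k] (O : ℤ → ℤ → Sch k → Reg.{w} K Unit) (b : ℤ)
    {Z X U : Sch k} (i : Z ⟶ X) (j : U ⟶ X) (α : ∀ m : ℤ, Reg.Hom (O b m Z) (O b m X))
    (β : ∀ m : ℤ, Reg.Hom (O b m X) (O b m U)) (δ : ∀ m : ℤ, Reg.Hom (O b (m + 1) U) (O b m Z)) :
    Prop where
  triple : IsTriple i j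
  ft : FT True U
  exact1 : ∀ m, Reg.Exact (α m) (β m)
  exact2 : ∀ m, Reg.Exact (β (m + 1)) (δ m)
  exact3 : ∀ m, Reg.Exact (δ m) (α m)

/-- The known properties of the regulators over a finite field `k`: the properties `IsTheory` (long
exact sequences, homotopy invariance, ...; see `Pool.Agent.U554.TU.Reg`) and

* `torsor`: homotopy invariance for affine bundles;
* `jouanolou`: smooth separated schemes of finite type have affine bundles with affine total space
  (Jouanolou, Thomason);
* `boundary`: `CH_b(X, m)` is a direct factor of `CH_b(X × 𝔾_m, m + 1)`, with the étale homology (cup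
  product with the coordinate, boundary at `0`);
* `negative`: `CH_b(X, m) = 0` for `m < 0`;
* `support`: an element of `CH_b(X) ⊗ ℚ_ℓ` is the image of one of `CH_b(Z) ⊗ ℚ_ℓ` for a closed
  subscheme `Z` of dimension at most `b`; then `CH_b(Z) ⊗ ℚ_ℓ → H_{2 b}(Z̄, ℚ_ℓ(b))` is injective and
  the Frobenius acts on the target, which is generated by the classes of the irreducible components of
  `Z̄` of dimension `b`, with finite order;
* `weights`: for smooth proper `V` the homology `H_{2 b + 1}(V̄, ℚ_ℓ(b))` is pure of weight `-1`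
  (Deligne), so that `1` is not an eigenvalue of the Frobenius;
* `geisser`: if for all smooth proper `V` and all `b` the map `CH_b(V) ⊗ ℚ_ℓ → H_{2 b}(V̄, ℚ_ℓ(b))` is
  injective, and surjective onto the invariants, and the eigenvalue `1` is semisimple (the conjectures
  of Tate and Beilinson), then all regulators of all separated schemes of finite type are surjective
  onto the invariants (Geisser's theorem that these conjectures imply Parshin's conjecture; Jannsen,
  de Jong). -/
structure IsRegulator {k : Type} [Field k] (O : ℤ → ℤ → Sch k → Reg.{w} K Unit) : Prop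
    extends IsTheory O where
  torsor : BundleInvariant O
  jouanolou : ∀ X : Sch k, FT True X → Smooth X.hom → HasAffineBundle X
  boundary : ∀ (A : Type) [CommRing A] [Algebra k A] [Algebra.FiniteType k A] (b m : ℤ),
    Reg.Factor (O b m (aff k A)) (O b (m + 1) (aff k (LaurentPolynomial A)))
  negative : ∀ (X : Sch k) (b m : ℤ), FT True X → m < 0 → Subsingleton (O b m X).A
  support : ∀ (X : Sch k) (b : ℤ) (z : (O b 0 X).A), FT True X →
    ∃ (Z U : Sch k) (i : Z ⟶ X) (j : U ⟶ X) (α : ∀ m : ℤ, Reg.Hom (O b m Z) (O b m X))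
      (β : ∀ m : ℤ, Reg.Hom (O b m X) (O b m U)) (δ : ∀ m : ℤ, Reg.Hom (O b (m + 1) U) (O b m Z)),
      IsLocalization O b i j α β δ ∧ FT True Z ∧ (∃ y, (α 0).f y = z) ∧
      Function.Injective (O b 0 Z).c ∧ ∃ N : ℕ, 0 < N ∧ ∀ y, (frob (O b 0 Z) ^ N) y = y
  weights : ∀ (V : Sch k) (b : ℤ), FT True V → Smooth V.hom → IsProper V.hom →
    Function.Bijective fun x : (O b 1 V).B => frob (O b 1 V) x - x
  geisser : (∀ (V : Sch k) (b : ℤ), FT True V → Smooth V.hom → IsProper V.hom →
      Function.Injective (O b 0 V).c ∧ Onto (O b 0 V) ∧ SemisimpleAtOne (O b 0 V)) →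
    ∀ (X : Sch k) (b m : ℤ), FT True X → Onto (O b m X)

lemma inherited : Inherited (Onto (K := K)) := by
  rintro X Y ⟨s, r, h1, h2⟩ hY x hx
  obtain ⟨a, ha⟩ := hY (s.g x) (by
    change Y.act () (s.g x) = s.g x
    rw [← s.equi]
    exact congrArg s.g hx)
  refine ⟨r.f a, ?_⟩
  rw [← r.comm, ha, h2]

section

variable {k : Type} [Field k] {O : ℤ → ℤ → Sch k → Reg.{w} K Unit}

lemma smooth_open {V U : Sch k} (j : U ⟶ V) (hj : IsOpenImmersion j.left) (hV : Smooth V.hom) :
    Smooth U.hom := by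
  have h : U.hom = j.left ≫ V.hom := (Over.w j).symm
  rw [h]
  infer_instance

lemma equi' {X Y : Reg.{w} K Unit} (u : Reg.Hom X Y) (x : X.B) :
    u.g (frob X x) = frob Y (u.g x) := u.equi () x

/-- The eigenvalue `1` is semisimple if the open subschemes satisfy the Tate conjecture. -/
lemma semisimple [CharZero K] (hO : IsRegulator O) (b : ℤ) (V : Sch k) (hV : FT True V)
    (hs : Smooth V.hom) (h0 : ∀ X : Sch k, FT True X → HasAffineBundle X → Onto (O b 0 X)) :
    SemisimpleAtOne (O b 0 V) := by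
  intro x hx
  obtain ⟨z, hz⟩ := h0 V hV (hO.jouanolou V hV hs) _ hx
  obtain ⟨Z, U, i, j, α, β, δ, hL, hZ, ⟨y, hy⟩, hinj, N, hN, hF⟩ := hO.support V b z hV
  have hU : HasAffineBundle U := hO.jouanolou U hL.ft (smooth_open j hL.triple.opened hs)
  -- the restriction to `U` is invariant
  have h1 : (β 0).g (frob _ x - x) = 0 := by
    rw [← hz, (β 0).comm, ← hy]
    have : (β 0).f ((α 0).f y) = 0 := ((hL.exact1 0).1 _).mpr ⟨y, rfl⟩
    rw [this, map_zero]
  have h2 : frob _ ((β 0).g x) = (β 0).g x := by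
    rw [map_sub, equi', sub_eq_zero] at h1
    exact h1
  obtain ⟨a, ha⟩ := h0 U hL.ft hU _ h2
  -- lift `a` to `V`
  have h3 : ∃ a', (β 0).f a' = a := by
    have := hO.negative Z b (-1) hZ (by omega)
    have h4 := (hL.exact2 (-1)).1
    have h5 : ∀ t : (O b (-1 + 1) U).A, ∃ t', (β (-1 + 1)).f t' = t := fun t =>
      (h4 t).mp (Subsingleton.elim _ _)
    have h6 : ∀ t : (O b 0 U).A, ∃ t', (β 0).f t' = t := by
      rw [show (-1 : ℤ) + 1 = 0 from by norm_num] at h5
      exact h5
    exact h6 a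
  obtain ⟨a', ha'⟩ := h3
  have h4 : (β 0).g (x - (O b 0 V).c a') = 0 := by
    rw [map_sub, (β 0).comm, ha', ha, sub_self]
  obtain ⟨h, hh⟩ := ((hL.exact1 0).2 _).mp h4
  -- `(F - 1) x = α ((F - 1) h)`
  have h5 : frob _ x - x = (α 0).g (frob _ h - h) := by
    have h6 : frob (O b 0 V) ((O b 0 V).c a') = (O b 0 V).c a' := (O b 0 V).inv () a'
    rw [map_sub, equi', hh, map_sub, h6]
    abel
  -- sum over the powers of the Frobenius
  have h6 : ∀ n : ℕ, (α 0).g ((frob (O b 0 Z) ^ n) h - h) = n • (frob _ x - x) := by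
    intro n
    induction n with
    | zero => simp
    | succ n ih =>
      have h7 : (frob (O b 0 Z) ^ (n + 1)) h - h =
          frob (O b 0 Z) ((frob (O b 0 Z) ^ n) h - h) + (frob _ h - h) := by
        rw [map_sub, pow_succ']
        change frob (O b 0 Z) ((frob (O b 0 Z) ^ n) h) - h = _
        abel
      rw [h7, map_add, equi', ih, ← h5, map_nsmul, hx, succ_nsmul]
  have h7 := h6 N
  rw [hF, sub_self, map_zero] at h7
  have h8 : ((N : ℕ) : K) • (frob _ x - x) = 0 := by
    rw [Nat.cast_smul_eq_nsmul]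
    exact h7.symm
  rcases smul_eq_zero.mp h8 with h9 | h9
  · exact absurd h9 (by exact_mod_cast hN.ne')
  · exact sub_eq_zero.mp h9

/-- Injectivity in degree zero from surjectivity in degree one for the open subschemes. -/
lemma injective (hO : IsRegulator O) (b : ℤ) (V : Sch k) (hV : FT True V)
    (hs : Smooth V.hom) (hp : IsProper V.hom)
    (h1 : ∀ X : Sch k, FT True X → HasAffineBundle X → Onto (O b 1 X)) :
    Function.Injective (O b 0 V).c := by
  rw [injective_iff_map_eq_zero]
  intro z hz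
  obtain ⟨Z, U, i, j, α, β, δ, hL, hZ, ⟨y, hy⟩, hinj, N, hN, hF⟩ := hO.support V b z hV
  have hU : HasAffineBundle U := hO.jouanolou U hL.ft (smooth_open j hL.triple.opened hs)
  have h2 : (α 0).g ((O b 0 Z).c y) = 0 := by rw [(α 0).comm, hy, hz]
  obtain ⟨u, hu⟩ := ((hL.exact3 0).2 _).mp h2
  have h3 : (δ 0).g (frob _ u - u) = 0 := by
    rw [map_sub, equi', hu]
    have : frob (O b 0 Z) ((O b 0 Z).c y) = (O b 0 Z).c y := (O b 0 Z).inv () y
    rw [this, sub_self]
  obtain ⟨v, hv⟩ := ((hL.exact2 0).2 _).mp h3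
  have hw : ∀ v : (O b (0 + 1) V).B, ∃ v', frob _ v' - v' = v := by
    rw [zero_add]
    exact fun v => (hO.weights V b hV hs hp).2 v
  obtain ⟨v', rfl⟩ := hw v
  have h4 : frob _ (u - (β (0 + 1)).g v') = u - (β (0 + 1)).g v' := by
    rw [map_sub, equi'] at hv
    rw [map_sub, sub_eq_sub_iff_sub_eq_sub]
    exact hv.symm
  have h5 : ∀ t : (O b (0 + 1) U).B, frob _ t = t → ∃ a, (O b (0 + 1) U).c a = t := by
    rw [zero_add]
    exact h1 U hL.ft hU
  obtain ⟨t, ht⟩ := h5 _ h4
  have h6 : (δ 0).g (u - (β (0 + 1)).g v') = (δ 0).g u := by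
    rw [map_sub]
    have : (δ 0).g ((β (0 + 1)).g v') = 0 := ((hL.exact2 0).2 _).mpr ⟨v', rfl⟩
    rw [this, sub_zero]
  have h7 : (O b 0 Z).c ((δ 0).f t) = (O b 0 Z).c y := by
    rw [← (δ 0).comm, ht, h6, hu]
  have h8 : (δ 0).f t = y := hinj h7
  rw [← hy, ← h8]
  exact ((hL.exact3 0).1 _).mpr ⟨t, rfl⟩

/-- Surjectivity for the affine schemes passes to the lower degrees. -/
lemma descend (hO : IsRegulator O) (d : ℕ) (m : ℤ)
    (h : ∀ (A : Type) [CommRing A] [Algebra k A] [Algebra.FiniteType k A] (b : ℤ),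
      Onto (O b (m + d) (aff k A))) :
    ∀ (A : Type) [CommRing A] [Algebra k A] [Algebra.FiniteType k A] (b : ℤ),
      Onto (O b m (aff k A)) := by
  induction d with
  | zero => simpa using h
  | succ d ih =>
    apply ih
    intro A _ _ _ b
    have h2 := hO.boundary A b (m + d)
    have h3 : Algebra.FiniteType k (LaurentPolynomial A) := ft_laurent A
    have h4 := h (LaurentPolynomial A) b
    rw [show m + ((d + 1 : ℕ) : ℤ) = m + d + 1 from by push_cast; ring] at h4
    exact inherited _ _ h2 h4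

/-- From surjectivity in one degree `n ≥ 1` for the affine schemes. -/
lemma all_onto [CharZero K] (hO : IsRegulator O) (n : ℤ) (hn : 1 ≤ n)
    (h : ∀ (A : Type) [CommRing A] [Algebra k A] [Algebra.FiniteType k A] (b : ℤ),
      Onto (O b n (aff k A))) (X : Sch k) (b m : ℤ) (hX : FT True X) : Onto (O b m X) := by
  have h1 := descend hO (n - 1).toNat 1 (fun A _ _ _ b => by
    rw [show (1 : ℤ) + ((n - 1).toNat : ℤ) = n from by omega]
    exact h A b)
  have h0 := descend hO n.toNat 0 (fun A _ _ _ b => by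
    rw [show (0 : ℤ) + (n.toNat : ℤ) = n from by omega]
    exact h A b)
  have k0 : ∀ (b : ℤ) (X : Sch k), FT True X → HasAffineBundle X → Onto (O b 0 X) :=
    fun b X hX hX' => bundle_of_affine hO.torsor inherited 0 h0 X hX hX' b
  have k1 : ∀ (b : ℤ) (X : Sch k), FT True X → HasAffineBundle X → Onto (O b 1 X) :=
    fun b X hX hX' => bundle_of_affine hO.torsor inherited 1 h1 X hX hX' b
  refine hO.geisser (fun V b hV hs hp => ⟨injective hO b V hV hs hp (k1 b), k0 b V hV
    (hO.jouanolou V hV hs), semisimple hO b V hV hs (k0 b)⟩) X b m hX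

end

/-- **The Tate conjecture for higher Chow groups and the groups `CH^j(Y, n)` of the cubic
hypersurfaces `T(x, y, z) = 1`.** Let `k` be a finite field, `ℓ` a prime number, and let `O b m X` have
the known properties of the regulators `CH_b(X, m) ⊗ ℚ_ℓ → H_{m + 2 b}(X̄, ℚ_ℓ(b))` for the separated
schemes `X` of finite type over `k`. Let `n ≥ 2` be an arbitrary fixed number. The following assertions
are equivalent:
* (Q1 for `k`) for all smooth `X` and all `b`, `m` the regulators are surjective onto the Galois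
  invariants;
* the same for all separated schemes `X` of finite type over `k`, singular or not;
* for all trilinear forms `T` over `k` and all `j ≥ 1` the maps
  `CH^j(Y_T, n) ⊗ ℚ_ℓ → H^{2 j - n}(Ȳ_T, ℚ_ℓ(j))` are surjective onto the Galois invariants.
If `k` is a prime field, the hypersurfaces `∑_{(i, j, k) ∈ H} x_i y_j z_k = 1`, `H` a finite set of
triples, are sufficient in the last assertion. -/
theorem result (k : Type) [Field k] [Finite k] (ℓ : ℕ) [Fact ℓ.Prime]
    (O : ℤ → ℤ → Sch k → Reg.{w} ℚ_[ℓ] Unit) (hO : IsRegulator O) (n : ℤ) (hn : 2 ≤ n) :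
    List.TFAE [
      ∀ (X : Sch k) (b m : ℤ), FT True X → Smooth X.hom → Onto (O b m X),
      ∀ (X : Sch k) (b m : ℤ), FT True X → Onto (O b m X),
      ∀ (a₁ a₂ a₃ : ℕ) (T : Fin a₁ → Fin a₂ → Fin a₃ → k) (j : ℕ), 1 ≤ j →
        Onto (O (a₁ + a₂ + a₃ - 1 - j) n (hypS T))] ∧
    (Function.Surjective (Int.cast : ℤ → k) →
      ((∀ (X : Sch k) (b m : ℤ), FT True X → Smooth X.hom → Onto (O b m X)) ↔
      ∀ (a₁ a₂ a₃ : ℕ) (H : Finset (Fin a₁ × Fin a₂ × Fin a₃)) (j : ℕ), 1 ≤ j →
        Onto (O (a₁ + a₂ + a₃ - 1 - j) n (tripS k H)))) := by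
  have hT := hO.toIsTheory
  have hsm : ∀ (a₁ a₂ a₃ : ℕ) (T : Fin a₁ → Fin a₂ → Fin a₃ → k), Smooth (hypS T).hom := by
    intro a₁ a₂ a₃ T
    change Smooth (Spec.map (CommRingCat.ofHom (algebraMap k (Hyp T))))
    rw [HasRingHomProperty.Spec_iff (P := @Smooth)]
    exact RingHom.smooth_algebraMap.mpr (hyp_smooth T)
  have hn' : n - 1 + 1 = n := by omega
  refine ⟨?_, ?_⟩
  · tfae_have 2 → 1 := fun h X b m hX _ => h X b m hX
    tfae_have 1 → 3 := fun h a₁ a₂ a₃ T j _ => h _ _ _ (ft_aff True) (hsm _ _ _ T)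
    tfae_have 3 → 2 := by
      intro h X b m hX
      refine all_onto hO (n - 1) (by omega) ?_ X b m hX
      intro A _ _ _ b
      refine affine_of_hyp hT inherited (S := Set.univ) trivial trivial presents_univ (n - 1)
        (fun a₁ a₂ a₃ T _ j hj => ?_) A b
      rw [hn']
      exact h a₁ a₂ a₃ T j hj
    tfae_finish
  · intro hk
    constructor
    · intro h a₁ a₂ a₃ H j hj
      obtain ⟨T, -, hH⟩ := trip_hyp (R := k) H
      rw [← hH]
      exact h _ _ _ (ft_aff True) (hsm _ _ _ T)
    · intro h X b m hX _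
      refine all_onto hO (n - 1) (by omega) ?_ X b m hX
      intro A _ _ _ b
      refine affine_of_hyp hT inherited (S := {0, 1}) (Or.inl rfl) (Or.inr rfl)
        (presents_zero_one hk) (n - 1) (fun a₁ a₂ a₃ T hT j hj => ?_) A b
      obtain ⟨H, hH⟩ := hyp_zero_one T hT
      rw [hH, hn']
      exact h a₁ a₂ a₃ H j hj

end Pool.Agent.Results.MP_81b968_ag.HigherChowGroupsOfCubics
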