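import Pool.Agent.U222.SL.T8

/-!
# Tate's conjecture for higher Chow groups of products of all smooth varieties with cyclic coverings of
large prime degrees

Let `κ` be a finite field with `q = c ^ f` elements, and `𝒱` a class of smooth projective varieties over
`κ`, closed under products, with Chow groups `A` with rational coefficients and a Weil cohomology theory
`H` (framework of helper492 and helper484: `TheoryData`, `IsChow`, `IsWeil`). Let `X_i` be varieties in
`𝒱`, of any dimensions `n_i ≥ 1`, which are models of the cyclic coverings

  `w ^ N_i = ∏_k l_{i,k} (x) ^ a_{i,k}`   (`a_{i,k} ≥ 1`, `∑_k a_{i,k} = A_i ≥ 2`)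

of the affine space of dimension `n_i`, branched along hyperplanes over `κ` (any arrangement of hyperplanes
which together with the hyperplane at infinity have no common point), where the `N_i` are different prime
numbers dividing `c - 1` (`IsModel`: the cohomology is generated by the classes of cycles and a part `T`,
pure of weight `n_i`, without invariants under the covering group, for which the trace formula holds).

Let `U` be **any** smooth variety over `κ` (open varieties are allowed), and `Z` **any** variety in `𝒱`. Fix an
integer `m`. For `X` in `𝒱` let
* `T^n(X) = CH^n(X × U, m) ⊗ ℚ_ℓ` (higher Chow groups),
* `R^n(X)` the elements of `H^{2n-m}(X × U)` on which the Frobenius endomorphism acts as `q ^ n`, that is,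
  the Galois invariants of the twist by `n`,
* `reg : T^n(X) → R^n(X)` the regulator, the map `c^{2n-m,n}` of the question for `X × U`, and
* `φ` the Frobenius endomorphism of `U`, on the cohomology.
On these groups act the correspondences between the varieties in `𝒱`; this and the fact that
homologically trivial correspondences act as zero on `R`, that is on
`H(X × U) = H(X) ⊗ H(U)`, are the only properties of `T`, `R` and `reg` which are used (`IsMotivic`,
`IsCohomological`, `IsRegulator`). Let `χ` be a polynomial with rational coefficients, `χ (0) ≠ 0`,
which is satisfied by the Frobenius endomorphism of `U` on the cohomology of `U`, let `B` be the set of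
the products `β` of an eigenvalue of Frobenius on `H(Z)` and of a complex root of `χ`, and suppose that
the `β` are algebraic with `|β| ^ 2 = q ^ d` (theorem of Deligne). Let `b` be a number such that

  `N_i > A_i ^ 2 b + A_i` for all `i`, and every `β` in `B` has degree at most `2 b + 1` over `ℚ`.

**For given `Z` and `U` these are conditions on the size of the primes `N_i` only.** The condition on `B`
which is used (`IsFewBase`) is weaker; it is sufficient that for every `β` in `B`
* the minimal polynomial has at most `2 b + 1` irreducible factors over the field of the roots of unity
  of order `∏ N_i`,
* or at most `b` of the conjugates of `β` have a slope smaller than `(d - λ) / 2`, where `λ` is a number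
  with `λ < n_i` for all `i` (for `b = 0`: all `Z × U` of level at most `λ`).

**Theorem.** Let `V` be the product of `Z` and of finitely many pairwise different `X_i`, and
`e = dim V - dim Z`.
* For every `n` **the regulator `c^{2n-m,n}` of `V × U` is surjective if and only if the regulators
  `c^{2l-m,l}` of `Z × U` with `n - e ≤ l ≤ n` are surjective**. So the conjecture of Beilinson,
  Friedlander and Jannsen (Tate's conjecture for higher Chow groups) for `V × U` is equivalent to the
  conjecture for `Z × U`; for `Z` a point, to the conjecture for `U`.
* If `V = X_i × V'`, then there are finitely many algebraic cycles `D j` on `X_i` such that the Galois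
  invariants satisfy `R^n(X_i × V') = ⨁ D j × R^(n - deg D j)(V')` for all `n`.

No nilpotence and no case of any conjecture is assumed. If `U` is a smooth curve, for example, the
conjecture is known for `U`, hence it holds for `X_1 × ⋯ × X_r × U` if all Betti numbers of `U` are at
most `2 b + 1`: for every open curve `U` and all sufficiently large `N_i`.

The starting result `MP_81b968_ag.HyperplaneCoverings` (helper876) is the other case: arbitrary degrees,
but either the cyclotomic polynomial of order `∏ N_i` is irreducible over the field of the numbers
`β`, or `Z × U` is of level smaller than the dimensions of the `X_i`. Here there is no condition on the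
field generated by the `β`, nor on the level or the dimension of `Z × U`: the primes `N_i` only have to be
large against the degrees of the `β`.

The proof. Let `α_i` be eigenvalues of the Frobenius on the parts `T_i`, for `i` in a nonempty set `I`,
with the characters `j_i` of the covering groups, and suppose that `β ∏ α_i` is a power of `q` times a
root of unity. There are `b + 1` automorphisms `σ_k` of the field of algebraic numbers
such that `σ_k j_i` are among the integers between `0` and `N_i / A_i`, and such that for any two of
them there is an automorphism `τ` for which the `τ σ_k j_i` are again in this interval and the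
`τ σ_l j_i` in its negative (theorem of Thue). By the theorem of Stickelberger on Gauss sums,
`∏ τ σ_k α_i` and `∏ τ σ_l α_i` have different `c`-adic valuations, so `σ_k β ≠ σ_l β`. So `β` has `b + 1`
different conjugates with small slopes, and with the complex conjugates `2 b + 2` different
conjugates, which is impossible. From this the decomposition of the invariants follows by
projectors in the ring generated by the Frobenius and the algebraic cycles (helper876).

helper222 (`Pool/Agent/U222/SL`); the part on higher Chow groups, with its definitions, is from the
starting result and the library `N876/CG` of helper876, built on helpers 484, 492, 550; the slopes on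
cyclic coverings: helper876 (`N876/TC`) and the estimates of sums over hyperplane arrangements by Gauss
sums (helper528 and others). The idea of large prime degrees is due to helper231.
-/

set_option autoImplicit false

open Polynomial CategoryTheory AlgebraicGeometry

namespace Pool.Agent.Results.MP_81b968_ag.LargePrimeCoverings

open Pool.Agent.H914 Pool.Agent.H914.VarClass Pool.Agent.H914.VarClass.Obj Pool.Agent.W492.BB
  Pool.Agent.W484.CK Pool.Agent.U222.SL.T8

/-- **Tate's conjecture for higher Chow groups of products of arbitrary smooth varieties with cyclic
coverings of large prime degrees branched along hyperplanes.** -/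
theorem result (c : ℕ) [Fact c.Prime] (κ : Type) [Field κ] [Fintype κ] [CharP κ c] {ι : Type}
    [Fintype ι] (C : ι → Covering κ) (f lam b : ℕ) (hC : IsLargeSystem C c f lam b)
    {𝒱 : VarClass κ} (A : TheoryData.{0, 0, 0} 𝒱 ℚ) [IsChow A] {K : Type} [Field K]
    [IsAlgClosed K] [CharZero K] (H : WeilTheoryData.{0, 0, 0} A K) [IsWeil H] (τ : K →+* ℂ)
    (F : ∀ X : 𝒱.Obj, X ⟶ X) (X : ι → 𝒱.Obj) (Z : 𝒱.Obj) (χ : ℚ[X])
    (h : IsCoveringSystem C c lam b H τ F X Z χ) (T R : MotivicData A)
    (φ : ∀ X, R.M X →ₗ[ℚ] R.M X) (hR : IsCohomological H R φ F (Fintype.card κ) χ)
    (reg : ∀ X, T.M X →ₗ[ℚ] R.M X) (hreg : IsRegulator T R reg) (L : List ι) (hL : L.Nodup) :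
    Conclusions X Z reg L :=
  main c κ C f lam b hC A H τ F X Z χ h T R φ hR reg hreg L hL

end Pool.Agent.Results.MP_81b968_ag.LargePrimeCoverings
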